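import Pool.Agent.Helper40.AC.Stmts

/-! # AC packet P19: the algebraic theorem -/

open scoped ContDiff Topology Matrix Kronecker TensorProduct
open MeasureTheory

namespace Pool.Agent.Helper32.AC

open Pool.Agent.Helper40.AC

noncomputable section

theorem range_proj {n B : Type} [Fintype n] [DecidableEq n] [CommRing B] (e : Matrix n n B)
    (he : e * e = e) : Module.Projective B (LinearMap.range (Matrix.toLin' e)) := by
  refine Module.Projective.of_split (LinearMap.range (Matrix.toLin' e)).subtype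
    (Matrix.toLin' e).rangeRestrict ?_
  ext1 y
  apply Subtype.ext
  obtain ⟨z, hz⟩ := y.2
  simp only [LinearMap.comp_apply, Submodule.subtype_apply, LinearMap.id_apply]
  change Matrix.toLin' e (y : n → B) = (y : n → B)
  rw [← hz, ← LinearMap.comp_apply, ← Matrix.toLin'_mul, he]

theorem kron_idem {m n B : Type} [Fintype m] [DecidableEq m] [Fintype n] [DecidableEq n]
    [CommRing B] (e : Matrix m m B) (f : Matrix n n B) (he : e * e = e) (hf : f * f = f) :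
    (e ⊗ₖ f) * (e ⊗ₖ f) = e ⊗ₖ f := by
  rw [← Matrix.mul_kronecker_mul, he, hf]

theorem phi_kron (hPD : S_PD) (hKR : S_KRON) (hTR : S_TRANS) {m n : Type} [Fintype m]
    [DecidableEq m] [Fintype n] [DecidableEq n] (p : Matrix m m BB) (g : Matrix n n BB)
    (hp : p * p = p) (hpT : pᵀ = p) (hg : g * g = g) (htp : p.trace = 2) (htg : g.trace = 1) :
    Phi (p ⊗ₖ g) = Phi p + 2 * Phi g := by
  have h1 := hKR (S := BB) (ι := Fin 4) pd (fun i x y => hPD.1 i x y)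
    (fun i x y => hPD.2.1 i x y) p g hp hg (hTR.2 p hp hpT) 0 1 2 3
  unfold Phi
  rw [h1, htp, htg, one_mul]
  have h2 : ∀ x, (om pd p 0 1 2 3 + 2 * om pd g 0 1 2 3 : BB).fn x
      = (om pd p 0 1 2 3).fn x + 2 * (om pd g 0 1 2 3).fn x := by
    intro x
    have h3 : (2 : BB) = 1 + 1 := by norm_num
    rw [h3]
    simp only [BB.fn_add, BB.fn_mul, BB.fn_one]
    ring
  simp only [h2]
  have i1 : IntegrableOn (om pd p 0 1 2 3).fn cube := hPD.2.2.2.2.2 _
  have i2 : IntegrableOn (om pd g 0 1 2 3).fn cube := hPD.2.2.2.2.2 _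
  rw [integral_add i1 (i2.const_mul 2), integral_const_mul]

theorem alg_ok (hPD : S_PD) (hID : S_IDEAL) (hBL : S_BLOCK) (hKR : S_KRON) (hTR : S_TRANS)
    (hR1 : S_RANK1) (hPDIM : S_PDIM) (hINV : S_INV) (hRG : S_RANGE) (hTE : S_TENS)
    (hAL : S_ALONG) (hCL : S_CLAIM) (hEL : S_ELL) (hCO : S_CONTR) (hFA : S_FACT)
    (hTF : S_TRFACT) (hTH : S_THETA) : S_ALG := by
  intro q _ _ p hp hpT htr A
  letI := algK A.κ
  obtain ⟨φ, hφ⟩ := hINV
  -- the presentation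
  obtain ⟨m, π, hπ⟩ := Module.Finite.exists_fin' (MvPolynomial (Fin 8) ℂ) A.J
  have halg : ∀ e : MvPolynomial (Fin 8) ℂ,
      algebraMap (MvPolynomial (Fin 8) ℂ) BB e = MvPolynomial.aeval A.κ e := fun e => rfl
  have hν0 : A.ν 0 = 0 := by
    have h := A.add 0 0
    rw [add_zero] at h
    exact left_eq_add.1 h
  have hloc : ∀ x : Ang, ∃ e : MvPolynomial (Fin 8) ℂ,
      evx x (algebraMap (MvPolynomial (Fin 8) ℂ) BB e) ≠ 0 ∧
      ∃ (α : LinearMap.ker π →ₗ[MvPolynomial (Fin 8) ℂ] (Fin (m + 1) → MvPolynomial (Fin 8) ℂ))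
        (β : (Fin (m + 1) → MvPolynomial (Fin 8) ℂ) →ₗ[MvPolynomial (Fin 8) ℂ] LinearMap.ker π),
        β ∘ₗ α = e • (LinearMap.id : LinearMap.ker π →ₗ[MvPolynomial (Fin 8) ℂ] LinearMap.ker π) ∧
        (LinearMap.toMatrix' (α ∘ₗ β)).trace = e * ((m : MvPolynomial (Fin 8) ℂ) - 1) := by
    intro x
    obtain ⟨F₁, F₂, hli, e, he, hsp⟩ := A.loc x
    refine ⟨e, he, ?_⟩
    have hF1 : (F₁ : MvPolynomial (Fin 8) ℂ) ≠ 0 := by
      intro h
      have h1 : F₁ = 0 := Subtype.ext h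
      have h2 := hli.ne_zero 0
      apply h2
      simp only [Matrix.cons_val_zero]
      rw [h1, hν0]
      funext i
      simp
    exact hFA (MvPolynomial (Fin 8) ℂ) A.J F₁ F₂ e F₁.2 F₂.2 hF1 (fun F hF => hsp ⟨F, hF⟩) m π hπ
  have hPA : ProjAlong (MvPolynomial (Fin 8) ℂ) evx (LinearMap.ker π) := by
    intro x
    obtain ⟨e, he, α, β, hab, _⟩ := hloc x
    exact ⟨e, he, m + 1, α, β, hab⟩
  have hKfin : Module.Finite (MvPolynomial (Fin 8) ℂ) (LinearMap.ker π) := inferInstance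
  obtain ⟨ρ, hρ⟩ := hCL (MvPolynomial (Fin 8) ℂ) BB Ang (ℂ × BB) evx φ hID
    (hCO A.κ φ hφ) 8 (LinearMap.ker π) (hPDIM 8 _) hKfin hPA
  obtain ⟨Θ⟩ := hTH q p hp htr A
  have hJfin : Module.Finite BB (BB ⊗[MvPolynomial (Fin 8) ℂ] A.J) :=
    Module.Finite.equiv Θ.symm
  have hJproj : Module.Projective BB (BB ⊗[MvPolynomial (Fin 8) ℂ] A.J) :=
    haveI := range_proj p hp
    Module.Projective.of_equiv Θ.symm
  have hK := (hAL (MvPolynomial (Fin 8) ℂ) BB Ang evx hID (LinearMap.ker π) hKfin hPA).1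
  obtain ⟨ℓ, _, _, hℓfin, hℓproj, hℓ⟩ := hEL (MvPolynomial (Fin 8) ℂ) BB (ℂ × BB) φ A.J m π hπ
    hJfin hJproj hK.1 hK.2
  obtain ⟨n, f, hf, ⟨ef⟩⟩ := hRG BB ℓ hℓfin hℓproj
  obtain ⟨N, s, hs, ⟨es⟩⟩ := hRG BB (BB ⊗[MvPolynomial (Fin 8) ℂ] (LinearMap.ker π)) hK.1 hK.2
  -- the invariant of BB
  have hBB : φ.val BB = (0, 1) := by
    have h1 := hφ Unit (1 : Matrix Unit Unit BB) (one_mul 1)
    rw [hBL.2.2] at h1
    have h2 : (1 : Matrix Unit Unit BB).trace = 1 := by simp [Matrix.trace]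
    rw [h2] at h1
    rw [← h1]
    apply φ.congr
    have e1 : LinearMap.range (Matrix.toLin' (1 : Matrix Unit Unit BB)) = ⊤ := by
      rw [Matrix.toLin'_one, LinearMap.range_id]
    exact (LinearEquiv.funUnique Unit BB BB).symm.trans
      ((Submodule.topEquiv (R := BB) (M := Unit → BB)).symm.trans
        (LinearEquiv.ofEq _ _ e1.symm))
  have hBfin : Module.Finite BB BB := inferInstance
  have hBproj : Module.Projective BB BB := inferInstance
  -- E = BB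
  have hE1 := hℓ BB hBfin hBproj
  rw [hρ BB hBfin hBproj, φ.congr _ _ (TensorProduct.lid BB ℓ),
    φ.congr _ _ (TensorProduct.lid BB (BB ⊗[MvPolynomial (Fin 8) ℂ] A.J)), φ.congr _ _ ef,
    φ.congr _ _ Θ, hφ _ f hf, hφ _ p hp, hBB, htr] at hE1
  have hE2 := hρ BB hBfin hBproj
  rw [φ.congr _ _ (TensorProduct.lid BB (BB ⊗[MvPolynomial (Fin 8) ℂ] (LinearMap.ker π))),
    φ.congr _ _ es, hφ _ s hs, hBB] at hE2
  have a1 : Phi f = Phi p := by
    have h := congrArg Prod.fst hE1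
    simpa using h
  have a2 : f.trace + (m : BB) = (ρ : BB) + 2 := by
    have h := congrArg Prod.snd hE1
    simpa using h
  have a3 : s.trace = (ρ : BB) := by
    have h := congrArg Prod.snd hE2
    simpa using h
  -- the value of rho
  have a4 : (ρ : ℂ) = (m : ℂ) - 1 := by
    obtain ⟨e, he, α, β, hab, htrace⟩ := hloc 0
    have h1 := hTF (MvPolynomial (Fin 8) ℂ) BB (LinearMap.ker π) N (m + 1) s e hs es α β hab
    rw [htrace, a3, map_mul] at h1
    have h2 := congrArg (evx 0) h1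
    rw [map_mul, map_mul] at h2
    have h3 := mul_left_cancel₀ he h2
    simp only [map_sub, map_natCast, map_one, map_intCast] at h3
    exact h3.symm
  have a5 : (ρ : ℤ) = (m : ℤ) - 1 := by
    exact_mod_cast a4
  have a6 : f.trace = 1 := by
    have h1 : (ρ : BB) = (m : BB) - 1 := by
      rw [a5]
      push_cast
      ring
    rw [h1] at a2
    have h2 : f.trace = (m : BB) - 1 + 2 - m := by
      rw [← a2]
      ring
    rw [h2]
    ring
  -- E = range of the transpose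
  have hfT : fᵀ * fᵀ = fᵀ := by
    rw [← Matrix.transpose_mul, hf]
  have htT : fᵀ.trace = 1 := by
    rw [Matrix.trace_transpose, a6]
  have hEfin : Module.Finite BB (LinearMap.range (Matrix.toLin' fᵀ)) := inferInstance
  have hEproj := range_proj fᵀ hfT
  have hE3 := hℓ (LinearMap.range (Matrix.toLin' fᵀ)) hEfin hEproj
  obtain ⟨t1⟩ := hTE BB _ _ fᵀ f hfT hf
  obtain ⟨t2⟩ := hTE BB _ _ p fᵀ hp hfT
  have b1 : φ.val (LinearMap.range (Matrix.toLin' fᵀ) ⊗[BB] ℓ)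
      = (Phi (fᵀ ⊗ₖ f), (fᵀ ⊗ₖ f).trace) := by
    rw [φ.congr (LinearMap.range (Matrix.toLin' fᵀ) ⊗[BB] ℓ)
      (LinearMap.range (Matrix.toLin' fᵀ) ⊗[BB] LinearMap.range (Matrix.toLin' f))
      (TensorProduct.congr (LinearEquiv.refl BB _) ef), φ.congr _ _ t1,
      hφ _ _ (kron_idem _ _ hfT hf)]
  have b2 : φ.val (LinearMap.range (Matrix.toLin' fᵀ) ⊗[BB]
      (BB ⊗[MvPolynomial (Fin 8) ℂ] A.J)) = (Phi (p ⊗ₖ fᵀ), (p ⊗ₖ fᵀ).trace) := by
    rw [φ.congr (LinearMap.range (Matrix.toLin' fᵀ) ⊗[BB] (BB ⊗[MvPolynomial (Fin 8) ℂ] A.J))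
      (LinearMap.range (Matrix.toLin' fᵀ) ⊗[BB] LinearMap.range (Matrix.toLin' p))
      (TensorProduct.congr (LinearEquiv.refl BB _) Θ),
      φ.congr (LinearMap.range (Matrix.toLin' fᵀ) ⊗[BB] LinearMap.range (Matrix.toLin' p))
      (LinearMap.range (Matrix.toLin' p) ⊗[BB] LinearMap.range (Matrix.toLin' fᵀ))
      (TensorProduct.comm BB _ _), φ.congr _ _ t2,
      hφ _ _ (kron_idem _ _ hp hfT)]
  rw [hρ _ hEfin hEproj, b1, b2, hφ _ _ hfT] at hE3
  have b3 : Phi (fᵀ ⊗ₖ f) + (m : ℂ) * Phi fᵀ = (ρ : ℂ) * Phi fᵀ + Phi (p ⊗ₖ fᵀ) := by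
    have h := congrArg Prod.fst hE3
    simpa using h
  have b4 : Phi (fᵀ ⊗ₖ f) = 0 := by
    have h := hR1 fᵀ hfT htT
    rwa [Matrix.transpose_transpose] at h
  rw [b4, phi_kron hPD hKR hTR p fᵀ hp hpT hfT htr htT, hTR.1 f hf, a1, a4] at b3
  have b5 : 2 * Phi p = 0 := by linear_combination (-1) * b3
  simpa using b5

end

end Pool.Agent.Helper32.AC
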